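import Pool.Agent.W580.SH.StmA

/-! Project SH, part AB1: the minor of the context is `±1/4`. -/

namespace Pool.Agent.W925.SH.AB1

open Pool.Agent.W580.SH Finset

/-- coefficients of `f0+v0, f0-v0, f1+v1, f1-v1, f0+v2` -/
def U1 : Matrix (Fin 5) (Fin 5) ℝ :=
  !![1, 1, 0, 0, 1;
     0, 0, 1, 1, 0;
     1, -1, 0, 0, 0;
     0, 0, 1, -1, 0;
     0, 0, 0, 0, 1]

/-- coefficients of `f0+v0, f0-v0, f0+v1, f0+v2, f1+v0` -/
def U2 : Matrix (Fin 5) (Fin 5) ℝ :=
  !![1, 1, 1, 1, 0;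
     0, 0, 0, 0, 1;
     1, -1, 0, 0, 1;
     0, 0, 1, 0, 0;
     0, 0, 0, 1, 0]

/-- `U1` over `ℤ` -/
def V1 : Matrix (Fin 5) (Fin 5) ℤ :=
  !![1, 1, 0, 0, 1;
     0, 0, 1, 1, 0;
     1, -1, 0, 0, 0;
     0, 0, 1, -1, 0;
     0, 0, 0, 0, 1]

/-- `U2` over `ℤ` -/
def V2 : Matrix (Fin 5) (Fin 5) ℤ :=
  !![1, 1, 1, 1, 0;
     0, 0, 0, 0, 1;
     1, -1, 0, 0, 1;
     0, 0, 1, 0, 0;
     0, 0, 0, 1, 0]

theorem detV1 : |V1.det| = 4 := by
  decide +kernel

theorem detV2 : |V2.det| = 2 := by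
  decide +kernel

theorem det1 : |U1.det| = 4 := by
  have e : U1 = (Int.castRingHom ℝ).mapMatrix V1 := by
    ext i j
    fin_cases i <;> fin_cases j <;> simp [U1, V1]
  rw [e, ← RingHom.map_det]
  simp only [eq_intCast]
  have := detV1
  exact_mod_cast this

theorem det2 : |U2.det| = 2 := by
  have e : U2 = (Int.castRingHom ℝ).mapMatrix V2 := by
    ext i j
    fin_cases i <;> fin_cases j <;> simp [U2, V2]
  rw [e, ← RingHom.map_det]
  simp only [eq_intCast]
  have := detV2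
  exact_mod_cast this

theorem main (hL : S_LIN) (hH : S_HALF) : S_AB1 := by
  intro R S t f v κ h
  have hq := h.qs
  have m1 := hL R 5 κ (fv f v) U1
  have m2 := hL R 5 κ (fv f v) U2
  have p1 : ∀ b, (∑ a, U1 a b • (fv f v) a) ∈ S := by
    intro b
    fin_cases b
    · have := hq 0 0 1 1 (Or.inl rfl) (Or.inl rfl)
      convert this using 1
      simp [Fin.sum_univ_succ, U1, fv]
    · have := hq 0 0 1 (-1) (Or.inl rfl) (Or.inr rfl)
      convert this using 1
      simp [Fin.sum_univ_succ, U1, fv]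
    · have := hq 1 1 1 1 (Or.inl rfl) (Or.inl rfl)
      convert this using 1
      simp [Fin.sum_univ_succ, U1, fv]
    · have := hq 1 1 1 (-1) (Or.inl rfl) (Or.inr rfl)
      convert this using 1
      simp [Fin.sum_univ_succ, U1, fv]
    · have := hq 0 2 1 1 (Or.inl rfl) (Or.inl rfl)
      convert this using 1
      simp [Fin.sum_univ_succ, U1, fv]
  have p2 : ∀ b, (∑ a, U2 a b • (fv f v) a) ∈ S := by
    intro b
    fin_cases b
    · have := hq 0 0 1 1 (Or.inl rfl) (Or.inl rfl)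
      convert this using 1
      simp [Fin.sum_univ_succ, U2, fv]
    · have := hq 0 0 1 (-1) (Or.inl rfl) (Or.inr rfl)
      convert this using 1
      simp [Fin.sum_univ_succ, U2, fv]
    · have := hq 0 1 1 1 (Or.inl rfl) (Or.inl rfl)
      convert this using 1
      simp [Fin.sum_univ_succ, U2, fv]
    · have := hq 0 2 1 1 (Or.inl rfl) (Or.inl rfl)
      convert this using 1
      simp [Fin.sum_univ_succ, U2, fv]
    · have := hq 1 0 1 1 (Or.inl rfl) (Or.inl rfl)
      convert this using 1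
      simp [Fin.sum_univ_succ, U2, fv]
  have q1 := h.ts 5 κ _ p1
  rw [m1, abs_mul, det1] at q1
  obtain ⟨n, hn⟩ := hH R S t h.co 5 κ _ p2
  rw [m2] at hn
  have h0 : mn κ (fv f v) ≠ 0 := h.det
  have hn0 : n ≠ 0 := by
    rintro rfl
    have d2 := det2
    have : U2.det ≠ 0 := by
      intro h'
      rw [h', abs_zero] at d2
      norm_num at d2
    have h3 : 2 * (mn κ (fv f v) * U2.det) = 0 := by rw [hn]; norm_num
    have h4 : mn κ (fv f v) * U2.det ≠ 0 := mul_ne_zero h0 this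
    apply h4
    linarith
  have hn1 : (1 : ℝ) ≤ |(n : ℝ)| := by
    have : (1 : ℤ) ≤ |n| := Int.one_le_abs hn0
    exact_mod_cast this
  rw [← hn, abs_mul, abs_mul, det2] at hn1
  rw [abs_of_pos (by norm_num : (0 : ℝ) < 2)] at hn1
  linarith

end Pool.Agent.W925.SH.AB1
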